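import Pool.Agent.MP_46aeaf_co.Mg.Asym
import Pool.Agent.MP_46aeaf_co.Mg.LS_Model

set_option autoImplicit false

namespace Pool.Agent.Results.MP_46aeaf_co.HittingTime

lemma latin_iff {n : ℕ} (P : Fin n × Fin n × Fin n → Prop) :
    (∃ L : Fin n → Fin n → Fin n, (∀ i, Function.Injective (L i)) ∧
      (∀ j, Function.Injective fun i => L i j) ∧ ∀ i j, P (i, j, L i j)) ↔
    ∃ F : Set (Fin n × Fin n × Fin n), (∀ x ∈ F, P x) ∧ (∀ i j, ∃! k, (i, j, k) ∈ F) ∧
      (∀ i k, ∃! j, (i, j, k) ∈ F) ∧ ∀ j k, ∃! i, (i, j, k) ∈ F := by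
  constructor
  · rintro ⟨L, h1, h2, h3⟩
    refine ⟨{x | L x.1 x.2.1 = x.2.2}, ?_, fun i j => ⟨L i j, rfl, fun k hk => hk.symm⟩,
      fun i k => (Finite.injective_iff_bijective.1 (h1 i)).existsUnique k,
      fun j k => (Finite.injective_iff_bijective.1 (h2 j)).existsUnique k⟩
    rintro ⟨i, j, k⟩ (rfl : L i j = k)
    exact h3 i j
  · rintro ⟨F, h0, h1, h2, h3⟩
    choose L hL _ using h1
    exact ⟨L, fun i j j' h => (h2 i (L i j)).unique (hL i j) (h ▸ hL i j'),
      fun j i i' h => (h3 j (L i j)).unique (hL i j) ((show L i j = L i' j from h) ▸ hL i' j),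
      fun i j => h0 _ (hL i j)⟩

/-- For a uniformly random ordering of the triangles of `K_{n,n,n}`, with probability tending to
one: whenever the first `t` triangles cover every edge, some set of triangles among them covers
every edge exactly once. -/
theorem result :
    Filter.Tendsto (fun n : ℕ =>
      (Nat.card {e : (Fin n × Fin n × Fin n) ≃ Fin (n ^ 3) //
        ∀ t : ℕ,
          ((∀ i j : Fin n, ∃ k : Fin n, ((e (i, j, k) : Fin (n ^ 3)) : ℕ) < t) ∧
           (∀ i k : Fin n, ∃ j : Fin n, ((e (i, j, k) : Fin (n ^ 3)) : ℕ) < t) ∧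
           (∀ j k : Fin n, ∃ i : Fin n, ((e (i, j, k) : Fin (n ^ 3)) : ℕ) < t)) →
          ∃ F : Set (Fin n × Fin n × Fin n),
            (∀ x ∈ F, ((e x : Fin (n ^ 3)) : ℕ) < t) ∧
            (∀ i j : Fin n, ∃! k : Fin n, (i, j, k) ∈ F) ∧
            (∀ i k : Fin n, ∃! j : Fin n, (i, j, k) ∈ F) ∧
            (∀ j k : Fin n, ∃! i : Fin n, (i, j, k) ∈ F)} : ℝ) /
      (Nat.card ((Fin n × Fin n × Fin n) ≃ Fin (n ^ 3)) : ℝ))
      Filter.atTop (nhds 1) := by
  simp only [← latin_iff]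
  exact Pool.Agent.MP_46aeaf_co.HT.of_goodC
    (Pool.Agent.MP_46aeaf_co.HT.goodC_of_core Pool.Agent.MP_46aeaf_co.HT.core)

end Pool.Agent.Results.MP_46aeaf_co.HittingTime
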